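import Pool.Agent.H253_GQ.Core
import Pool.Agent.Results.MP_a3aa3c_co.NoGQ4_11

/-!
# No generalized quadrangle of order `(s, s ^ 2 - s)`, `s ≥ 3`

In particular there is no generalized quadrangle of order `(4, 12)`, which answers Q2.
`IsGQ I s t` (the axioms of a generalized quadrangle of order `(s, t)`) is the structure of the
starting file `NoGQ4_11`, and the linear algebra is that of `Pool.Agent.H253_GQ.Core`.
-/

universe u v

namespace Pool.Agent.Results.MP_a3aa3c_co.NoGQSquareMinus

open Pool.Agent.Results.MP_a3aa3c_co.NoGQ4_11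

/-- **There is no finite generalized quadrangle of order `(s, s ^ 2 - s)` for any `s ≥ 3`**; for
`s = 4` this is the order `(4, 12)` of Q2. -/
theorem result (s : ℕ) (hs : 3 ≤ s) (P : Type u) (B : Type v) [Finite P] [Finite B] [Nonempty P]
    (I : P → B → Prop) : ¬ IsGQ I s (s ^ 2 - s) := by
  classical
  intro h
  have := Fintype.ofFinite P
  have := Fintype.ofFinite B
  have hA := gqMat h
  have hle : s ≤ s ^ 2 := Nat.le_self_pow (by norm_num) s
  rw [Nat.cast_sub hle, Nat.cast_pow] at hA
  exact Pool.Agent.H253_GQ.no_GQMat s hs _ hA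

end Pool.Agent.Results.MP_a3aa3c_co.NoGQSquareMinus
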